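import Pool.Agent.Cover.Final2
import Pool.Agent.Cover.Subsets
import Pool.Agent.Cover.Primes

/-!
# A random set of size `√p` does not tile `ℤ/pℤ` with `O(√p)` translates

For every constant `C`, the probability that `ℤ/pℤ` is covered by at most `C k` translates of a
uniformly random `k`-subset, `k = ⌊√p⌋`, tends to zero as `p → ∞` through the primes.
-/

namespace Pool.Agent.Results.MP_d73134_co.CoverProbTendsToZero

open Filter Cover Finset
open scoped Classical

/-- The proportion, among all subsets `A` of `ℤ/pℤ` of size `k = ⌊√p⌋`, of those for which there is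
a set `T` with at most `C k` elements and `A + T = ℤ/pℤ`. -/
noncomputable def coverProb (C : ℝ) (p : ℕ) : ℝ :=
  (Nat.card {A : Finset (ZMod p) // A.card = Nat.sqrt p ∧
      ∃ T : Finset (ZMod p), (T.card : ℝ) ≤ C * (Nat.sqrt p : ℝ) ∧
        ∀ x : ZMod p, ∃ a ∈ A, ∃ t ∈ T, a + t = x} : ℝ) /
    (Nat.card {A : Finset (ZMod p) // A.card = Nat.sqrt p} : ℝ)

lemma coverProb_nonneg (C : ℝ) (p : ℕ) : 0 ≤ coverProb C p := by
  unfold coverProb
  positivity

/-- The covering property. -/
def Cov (C : ℝ) (p : ℕ) (A : Finset (ZMod p)) : Prop :=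
  ∃ T : Finset (ZMod p), (T.card : ℝ) ≤ C * (Nat.sqrt p : ℝ) ∧
        ∀ x : ZMod p, ∃ a ∈ A, ∃ t ∈ T, a + t = x

lemma coverProb_le (C : ℝ) (p : ℕ) [NeZero p] (δ : ℝ)
    (h : pr (fun a : Fin (Nat.sqrt p) → ZMod p => Function.Injective a ∧
      Cov C p (img a)) ≤ δ) : coverProb C p ≤ 2 * δ := by
  have hk : ((Nat.sqrt p : ℕ) : ℝ) ^ 2 ≤ Fintype.card (ZMod p) := by
    rw [ZMod.card]
    exact_mod_cast Nat.sqrt_le' p
  have h1 := subset_ratio_le (G := ZMod p) hk (Cov C p) δ h
  have hδ : 0 ≤ δ := le_trans (pr_nonneg _) h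
  have e1 : Nat.card {A : Finset (ZMod p) // A.card = Nat.sqrt p ∧
      ∃ T : Finset (ZMod p), (T.card : ℝ) ≤ C * (Nat.sqrt p : ℝ) ∧
        ∀ x : ZMod p, ∃ a ∈ A, ∃ t ∈ T, a + t = x} =
      ((univ : Finset (Finset (ZMod p))).filter fun A => A.card = Nat.sqrt p ∧ Cov C p A).card := by
    rw [Nat.card_eq_fintype_card, Fintype.card_subtype]
    congr 1
    ext A
    simp only [Finset.mem_filter]
    rfl
  have e2 : Nat.card {A : Finset (ZMod p) // A.card = Nat.sqrt p} =
      ((univ : Finset (Finset (ZMod p))).filter fun A => A.card = Nat.sqrt p).card := by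
    rw [Nat.card_eq_fintype_card, Fintype.card_subtype]
  unfold coverProb
  rw [e1, e2]
  refine div_le_of_le_mul₀ (by positivity) (by positivity) ?_
  exact h1

/-- For every constant `C`, the probability that a uniformly random subset of `ℤ/pℤ` of size
`⌊√p⌋` covers `ℤ/pℤ` by at most `C ⌊√p⌋` translates tends to zero, as `p` tends to infinity
through the primes. -/
theorem result (C : ℝ) :
    Tendsto (coverProb C) (atTop ⊓ 𝓟 {p : ℕ | p.Prime}) (nhds 0) := by
  rw [Metric.tendsto_nhds]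
  intro ε hε
  -- pass to a natural constant
  set C₁ : ℕ := ⌈C⌉₊ + 1 with hC₁
  have hCC : C ≤ C₁ := by
    have := Nat.le_ceil C
    rw [hC₁]
    push_cast
    linarith
  obtain ⟨j, C', K, r', ε₀, η, hj, hC', hK, hr', hε₀, hη, hmain⟩ :=
    exists_no_cover C₁ (by omega)
  have hEnv := env_primes (EE0 j)
  have hfact : ∀ p : Nat.Primes, Fact (p : ℕ).Prime := fun p => ⟨p.2⟩
  have hcard : ∀ᶠ p : Nat.Primes in primeFilter, Fintype.card (ZMod (p : ℕ)) = (p : ℕ) :=
    Eventually.of_forall fun p => ZMod.card _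
  have hodd : ∀ᶠ p : Nat.Primes in primeFilter, 3 ≤ (p : ℕ) :=
    (tendsto_comap : Tendsto (fun p : Nat.Primes => (p : ℕ)) primeFilter atTop)
      |>.eventually_ge_atTop 3
  have hbij : ∀ᶠ p : Nat.Primes in primeFilter,
      Function.Bijective fun g : ZMod (p : ℕ) => g + g := by
    filter_upwards [hodd] with p hp
    have h2 : (2 : ZMod (p : ℕ)) ≠ 0 := by
      intro h
      have h3 : ((2 : ℕ) : ZMod (p : ℕ)) = 0 := by exact_mod_cast h
      rw [ZMod.natCast_eq_zero_iff] at h3
      have := Nat.le_of_dvd (by norm_num) h3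
      omega
    have hinj : Function.Injective fun g : ZMod (p : ℕ) => g + g := by
      intro x y hxy
      simp only at hxy
      rw [← two_mul, ← two_mul] at hxy
      exact mul_left_cancel₀ h2 hxy
    exact (Finite.injective_iff_bijective).mp hinj
  have h1 := hmain (G := fun p : Nat.Primes => ZMod (p : ℕ)) hEnv hcard
  have h2 := pr_not_Good (G := fun p : Nat.Primes => ZMod (p : ℕ)) hEnv hj hcard hbij C' K r'
    hC' hK hr' ε₀ η hε₀ hη (ε / 3) (by positivity)
  have h3 : ∀ᶠ p : Nat.Primes in primeFilter, coverProb C (p : ℕ) ≤ 2 * (ε / 3) := by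
    filter_upwards [h1, h2] with p g1 g2
    have : NeZero (p : ℕ) := ⟨p.2.ne_zero⟩
    refine coverProb_le C (p : ℕ) (ε / 3) (le_trans (pr_mono fun a ha => ?_) g2)
    intro hgood
    obtain ⟨hinj, T, hT, hcov⟩ := ha
    have hT' : T.card ≤ C₁ * Nat.sqrt (p : ℕ) := by
      have : (T.card : ℝ) ≤ (C₁ : ℝ) * (Nat.sqrt (p : ℕ) : ℝ) :=
        hT.trans (mul_le_mul_of_nonneg_right hCC (by positivity))
      exact_mod_cast this
    obtain ⟨x, hx⟩ := g1 a hinj hgood T hT'
    obtain ⟨b, hb, t, ht, hbt⟩ := hcov x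
    rw [mem_img] at hb
    obtain ⟨e, he⟩ := hb
    apply hx e
    have : x - a e = t := by rw [← hbt, he]; abel
    rw [this]
    exact ht
  unfold primeFilter at h3
  rw [eventually_comap] at h3
  rw [eventually_inf_principal]
  filter_upwards [h3] with p hp hprime
  have h4 := hp ⟨p, hprime⟩ rfl
  simp only at h4
  rw [Real.dist_eq, sub_zero, abs_of_nonneg (coverProb_nonneg C p)]
  linarith

end Pool.Agent.Results.MP_d73134_co.CoverProbTendsToZero
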